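import Pool.Agent.H35.Lir.Four

/-!
Every finite loopless digraph has weak locally irregular chromatic index at most `4`.
-/

namespace Pool.Agent.Results.MP_f514d4_co.FourColours

open Pool.Agent.H35.Lir

theorem result {V : Type} [Finite V] (D : V → V → Prop) (hD : ∀ x, ¬ D x x) :
    (∃ c : V → V → Fin 4, IsWLIColouring D c) ∧ lir D ≤ 4 := by
  have := Fintype.ofFinite V
  have h := exists_four D hD
  exact ⟨h, Nat.sInf_le h⟩

end Pool.Agent.Results.MP_f514d4_co.FourColours
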