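import Pool.Agent.H35.Lir.Large3

/-!
Two colours suffice for every digraph whose vertices, apart from a part with bipartite skeleton, from
sources and sinks, and from vertices all of whose neighbours are in that part, have large degrees.
Three colours suffice if that part has types, e.g. if its skeleton is six-colourable or all
outdegrees in it are at most three.
-/

namespace Pool.Agent.Results.MP_f514d4_co.LargeDegree

open Pool.Agent.H35.Lir

/-- The digraph induced by `L` has a six-colourable skeleton, or outdegrees at most three, or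
indegrees at most three, or there are types of the vertices of `L`. -/
def Part {V : Type} (D : V → V → Prop) (L : Set V) : Prop :=
  (∃ f : V → Fin 6, ∀ x ∈ L, ∀ y ∈ L, D x y → f x ≠ f y) ∨
  (∀ x ∈ L, outDeg (fun a b => D a b ∧ b ∈ L) x ≤ 3) ∨
  (∀ x ∈ L, inDeg (fun a b => D a b ∧ a ∈ L) x ≤ 3) ∨
  ∃ s, Types D L s

theorem Part.types {V : Type} [Finite V] {D : V → V → Prop} (hD : ∀ x, ¬ D x x) {L : Set V}
    (h : Part D L) : ∃ s, Types D L s := by
  rcases h with ⟨f, hf⟩ | h | h | h
  · exact ⟨_, types_of_six D L f hf⟩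
  · exact types_of_outDeg D hD L h
  · exact types_of_inDeg D hD L h
  · exact h

theorem result :
    -- every vertex is a source, a sink, or has a large degree
    (∀ {V : Type} [Finite V] (D : V → V → Prop), (∀ x, ¬ D x x) →
      (∀ v, outDeg D v = 0 ∨ inDeg D v = 0 ∨ (40000 ≤ outDeg D v ∧ 40000 ≤ inDeg D v) ∨
        32000000 ≤ outDeg D v + inDeg D v ∨ 16000000 ≤ outDeg D v ∨ 16000000 ≤ inDeg D v) →
      (∃ c : V → V → Fin 2, IsWLIColouring D c) ∧ lir D ≤ 2) ∧
    -- the same relative to a set `L` of vertices whose skeleton is bipartite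
    (∀ {V : Type} [Finite V] (D : V → V → Prop), (∀ x, ¬ D x x) → ∀ (L : Set V) (τ : V → Bool),
      (∀ x ∈ L, ∀ y ∈ L, D x y → τ x ≠ τ y) → (∀ v, v ∉ L → GoodVertex D L v) →
      (∃ c : V → V → Fin 2, IsWLIColouring D c) ∧ lir D ≤ 2) ∧
    -- three colours relative to a more general set `L` of vertices
    (∀ {V : Type} [Finite V] (D : V → V → Prop), (∀ x, ¬ D x x) → ∀ L : Set V,
      Part D L → (∀ v, v ∉ L → GoodVertex D L v) →
      (∃ c : V → V → Fin 3, IsWLIColouring D c) ∧ lir D ≤ 3) := by
  refine ⟨fun D hD h => large_empty D hD fun v => ?_, fun D hD L τ hτ hU => large D hD L τ hτ hU,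
    fun D hD L hL hU => ?_⟩
  · have := h v
    omega
  · obtain ⟨s, hs⟩ := hL.types hD
    exact large3 D hD L s hs hU

end Pool.Agent.Results.MP_f514d4_co.LargeDegree
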