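import Pool.Agent.H35.Lir.Steep4Cor
import Pool.Agent.H35.Lir.FrameCor
import Pool.Agent.H35.Lir.FewestCol
import Pool.Agent.H35.Lir.ToggleCor

/-!
Three colours suffice for a finite loopless digraph `D` if `D` or the reversed digraph satisfies
one of the conditions (a)-(g) below.
-/

namespace Pool.Agent.Results.MP_f514d4_co.ThreeColours

open Pool.Agent.H35.Lir

/-- conditions under which three colours suffice -/
def Cond {V : Type} (D : V → V → Prop) : Prop :=
  -- (a) every vertex which is not a source has outdegree at most six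
  (∀ x, inDeg D x ≠ 0 → outDeg D x ≤ 6) ∨
  -- (b) the skeleton is seven-colourable
  (∃ f : V → Fin 7, ∀ x y, D x y → f x ≠ f y) ∨
  -- (c) a set with four-colourable skeleton, and steep vertices without odd closed walks
  (∃ (W : Set V) (φ : V → Fin 4), (∀ x ∈ W, ∀ y ∈ W, D x y → φ x ≠ φ y) ∧
    ∀ x n, Odd n →
      ¬ Walk (fun a b => D a b ∧ (Steep D a ∧ a ∉ W) ∧ (Steep D b ∧ b ∉ W)) n x x) ∨
  -- (d) a set with six-colourable skeleton, small growth of a weighted imbalance outside it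
  (∃ (t : ℝ) (L : Set V) (f : V → Fin 6), 0 ≤ t ∧ t ≤ 1 ∧
    (∀ x ∈ L, ∀ y ∈ L, D x y → f x ≠ f y) ∧
    ∀ x y, x ∉ L → y ∉ L → D x y → inDeg D x ≠ 0 → outDeg D y ≠ 0 →
      t * ((outDeg D y : ℝ) - outDeg D x) + (1 - t) * ((inDeg D x : ℝ) - inDeg D y) < 2) ∨
  -- (e) a typed set, and steep vertices outside it with a flexible outneighbour
  (∃ (L : Set V) (s : V → Fin 3 → Fin 3), Types D L s ∧
    ∀ x y, D x y → x ∉ L → y ∉ L → inDeg D x ≠ 0 → outDeg D x + 2 ≤ outDeg D y →
      ∃ z, D x z ∧ Flex D L s z) ∨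
  -- (f) two classes and an independent set which dominate or absorb the other vertices
  (∃ (t : V → Option (Fin 2)) (M Q : Set V), DomAbs D t M Q) ∨
  -- (g) any two vertices are joined by an arc
  ∀ x y, x ≠ y → D x y ∨ D y x

theorem weighted_three {V : Type} [Finite V] (D : V → V → Prop) (hD : ∀ x, ¬ D x x)
    (t : ℝ) (L : Set V) (f : V → Fin 6) (ht0 : 0 ≤ t) (ht1 : t ≤ 1)
    (hf : ∀ x ∈ L, ∀ y ∈ L, D x y → f x ≠ f y)
    (h : ∀ x y, x ∉ L → y ∉ L → D x y → inDeg D x ≠ 0 → outDeg D y ≠ 0 →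
      t * ((outDeg D y : ℝ) - outDeg D x) + (1 - t) * ((inDeg D x : ℝ) - inDeg D y) < 2) :
    ∃ c : V → V → Fin 3, IsWLIColouring D c := by
  have h6 : ∀ i : Fin 6, (i.castSucc : Fin 7) ≠ 6 := by decide
  refine exists_colouring_frame D hD (by norm_num) ht0 ht1
    L (fun x => s6 (f x).castSucc) (fun x => t6 (f x).castSucc) (fun x _ => s6_ne _) ?_ ?_
  · intro x hx y hy hxy
    refine st6_inj _ _ (h6 _) (h6 _) ?_
    intro he
    exact hf x hx y hy hxy (Fin.castSucc_injective _ he)
  · intro x y hx hy hxy h1 h2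
    have := h x y hx hy hxy h1 h2
    norm_num at this ⊢
    linarith

theorem cond_three {V : Type} [Fintype V] (D : V → V → Prop) (hD : ∀ x, ¬ D x x) (h : Cond D) :
    ∃ c : V → V → Fin 3, IsWLIColouring D c := by
  rcases h with h | ⟨f, hf⟩ | ⟨W, φ, h1, h2⟩ | ⟨t, L, f, h1, h2, h3, h4⟩ |
    ⟨L, s, h1, h2⟩ | ⟨t, M, Q, h⟩ | h
  · exact three_of_outDeg_six D hD h
  · exact exists_three_of_seven D hD f hf
  · exact exists_three_steep D hD W φ h1 h2
  · exact weighted_three D hD t L f h1 h2 h3 h4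
  · exact exists_three_types D hD L s h1 h2
  · exact exists_three_domAbs D hD t M Q h
  · exact three_of_semicomplete D hD h

theorem result {V : Type} [Finite V] (D : V → V → Prop) (hD : ∀ x, ¬ D x x)
    (h : Cond D ∨ Cond fun x y => D y x) :
    (∃ c : V → V → Fin 3, IsWLIColouring D c) ∧ lir D ≤ 3 := by
  have := Fintype.ofFinite V
  have key : ∃ c : V → V → Fin 3, IsWLIColouring D c := by
    rcases h with h | h
    · exact cond_three D hD h
    · obtain ⟨c, hc⟩ := cond_three (fun x y => D y x) (fun x => hD x) h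
      exact ⟨fun x y => c y x, reverse_wli D c hc⟩
  exact ⟨key, Nat.sInf_le key⟩

end Pool.Agent.Results.MP_f514d4_co.ThreeColours
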