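import Pool.Agent.H35.Lir.TypedCor
import Pool.Agent.H35.Lir.Asc3

/-!
Two colours suffice for a finite loopless digraph `D` if `D` or the reversed digraph satisfies one
of the conditions (1)-(6) below.
-/

namespace Pool.Agent.Results.MP_f514d4_co.TwoColours

open Pool.Agent.H35.Lir

/-- conditions under which two colours suffice -/
def Cond {V : Type} (D : V → V → Prop) : Prop :=
  -- (1) there is a good typing
  (∃ t : V → Option (Fin 2), GoodTyping D t) ∨
  -- (2) ascending vertices: bipartite skeleton; all other vertices: acyclic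
  ((∃ ρ : V → Fin 2, ∀ x y, D x y → Ascending D x → Ascending D y → ρ x ≠ ρ y) ∧
    ∀ x, ¬ Relation.TransGen (fun a b => D a b ∧ ¬ Ascending D a ∧ ¬ Ascending D b) x x) ∨
  -- (3) strongly ascending vertices: bipartite skeleton
  (∃ ρ : V → Fin 2, ∀ x y, D x y → StrAsc D x → StrAsc D y → ρ x ≠ ρ y) ∨
  -- (4) outdegrees at most three, and strongly ascending vertices without odd closed walks
  ((∀ x, inDeg D x ≠ 0 → outDeg D x ≤ 3) ∧
    ∀ x n, Odd n → ¬ Walk (fun a b => D a b ∧ StrAsc D a ∧ StrAsc D b) n x x) ∨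
  -- (5) outdegrees at most two
  (∀ x, outDeg D x ≤ 2) ∨
  -- (6) a set with bipartite skeleton, small growth of a weighted imbalance outside it
  ∃ (t : ℝ) (L : Set V) (f : V → Fin 2), 0 ≤ t ∧ t ≤ 1 ∧
    (∀ x ∈ L, ∀ y ∈ L, D x y → f x ≠ f y) ∧
    ∀ x y, x ∉ L → y ∉ L → D x y → inDeg D x ≠ 0 → outDeg D y ≠ 0 →
      t * ((outDeg D y : ℝ) - outDeg D x) + (1 - t) * ((inDeg D x : ℝ) - inDeg D y) < 1

theorem weighted_two {V : Type} [Finite V] (D : V → V → Prop) (hD : ∀ x, ¬ D x x)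
    (t : ℝ) (L : Set V) (f : V → Fin 2) (ht0 : 0 ≤ t) (ht1 : t ≤ 1)
    (hf : ∀ x ∈ L, ∀ y ∈ L, D x y → f x ≠ f y)
    (h : ∀ x y, x ∉ L → y ∉ L → D x y → inDeg D x ≠ 0 → outDeg D y ≠ 0 →
      t * ((outDeg D y : ℝ) - outDeg D x) + (1 - t) * ((inDeg D x : ℝ) - inDeg D y) < 1) :
    ∃ c : V → V → Fin 2, IsWLIColouring D c := by
  have h2 : ∀ i : Fin 2, i ≠ 1 - i := by decide
  refine exists_colouring_frame D hD (by norm_num) ht0 ht1 L f (fun x => 1 - f x)
    (fun x _ => h2 _) ?_ ?_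
  · intro x hx y hy hxy he
    exact hf x hx y hy hxy (congrArg Prod.fst he)
  · intro x y hx hy hxy h1 h2
    have := h x y hx hy hxy h1 h2
    norm_num at this ⊢
    linarith

theorem cond_two {V : Type} [Fintype V] (D : V → V → Prop) (hD : ∀ x, ¬ D x x) (h : Cond D) :
    ∃ c : V → V → Fin 2, IsWLIColouring D c := by
  rcases h with ⟨t, ht⟩ | ⟨⟨ρ, hρ⟩, hac⟩ | ⟨ρ, h⟩ | ⟨h1, h2⟩ | h | ⟨t, L, f, h1, h2, h3, h4⟩
  · exact exists_typed D t ht
  · exact exists_typed D _ (goodTyping_of_ascending D ρ hρ hac)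
  · exact exists_two_of_strAsc D hD ρ h
  · exact exists_two_of_outDeg_three D hD h1 h2
  · exact exists_two_of_outDeg D hD h
  · exact weighted_two D hD t L f h1 h2 h3 h4

theorem result {V : Type} [Finite V] (D : V → V → Prop) (hD : ∀ x, ¬ D x x)
    (h : Cond D ∨ Cond fun x y => D y x) :
    (∃ c : V → V → Fin 2, IsWLIColouring D c) ∧ lir D ≤ 2 := by
  have := Fintype.ofFinite V
  have key : ∃ c : V → V → Fin 2, IsWLIColouring D c := by
    rcases h with h | h
    · exact cond_two D hD h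
    · obtain ⟨c, hc⟩ := cond_two (fun x y => D y x) (fun x => hD x) h
      exact ⟨fun x y => c y x, reverse_wli D c hc⟩
  exact ⟨key, Nat.sInf_le key⟩

end Pool.Agent.Results.MP_f514d4_co.TwoColours
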